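import Pool.Agent.Lib.MP_5cb574_an.Main
import Pool.Agent.Lib.MP_5cb574_an.Const

/-!
If `f` or `g` is a monomial, majorization on the annulus `1 / √3 < |z| < 1` implies domination in
the Bergman space.
-/

open Real MeasureTheory Metric

namespace Pool.Agent.Results.MP_5cb574_an.Full

/-- The squared norm `π⁻¹ ∫_D |h|² dm`. -/
noncomputable def normSq (h : ℂ → ℂ) : ENNReal :=
  ENNReal.ofReal π⁻¹ * ∫⁻ z in ball (0 : ℂ) 1, ‖h z‖ₑ ^ 2

/-- The Bergman space `A²`. -/
def InA2 (f : ℂ → ℂ) : Prop := DifferentiableOn ℂ f (ball 0 1) ∧ normSq f < ⊤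

/-- Bounded analytic functions on the disc. -/
def InHinf (φ : ℂ → ℂ) : Prop :=
  DifferentiableOn ℂ φ (ball 0 1) ∧ ∃ C : ℝ, ∀ z ∈ ball (0 : ℂ) 1, ‖φ z‖ ≤ C

/-- `h₁` is dominated by `h₂`. -/
def Dominated (h₁ h₂ : ℂ → ℂ) : Prop :=
  ∀ φ : ℂ → ℂ, InHinf φ → normSq (fun z => h₁ z * φ z) ≤ normSq (fun z => h₂ z * φ z)

/-- `f z = a * z ^ n` on the disc for some `a` and `n`. -/
def IsMonomial (f : ℂ → ℂ) : Prop := ∃ (a : ℂ) (n : ℕ), ∀ z ∈ ball (0 : ℂ) 1, f z = a * z ^ n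

open Pool.Agent.Lib.MP_5cb574_an

lemma ne_top {f : ℂ → ℂ} (hf : InA2 f) : ∫⁻ z in ball (0 : ℂ) 1, ‖f z‖ₑ ^ 2 ≠ ⊤ := by
  intro h
  have := hf.2
  unfold normSq at this
  rw [h, ENNReal.mul_top (by simpa using pi_pos)] at this
  exact lt_irrefl _ this

lemma inv_sqrt_lt : 1 / √3 < (29 / 50 : ℝ) := by
  have h : (50 / 29 : ℝ) < √3 := Real.lt_sqrt_of_sq_lt (by norm_num)
  rw [div_lt_iff₀ (by linarith)]
  linarith

theorem result (f g : ℂ → ℂ) (hf : InA2 f) (hg : InA2 g) (h : IsMonomial f ∨ IsMonomial g)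
    (hmaj : ∀ z : ℂ, 1 / √3 < ‖z‖ → ‖z‖ < 1 → ‖g z‖ ≤ ‖f z‖) : Dominated g f := by
  have hz0 : (0 : ℂ) ∈ ball (0 : ℂ) 1 := mem_ball_self one_pos
  rintro φ ⟨hφ, C, hC⟩
  refine mul_le_mul_right ?_ _
  have main := domination hf.1 hg.1 hφ (ne_top hf) (ne_top hg) hC hmaj
  by_cases h2 : g 0 = 0
  · exact main (Or.inl (by rw [h2, norm_zero]; exact norm_nonneg _))
  rcases h with ⟨a, n, h⟩ | ⟨a, n, h⟩
  · apply main
    by_cases h1 : a = 0 ∨ n = 0
    · left
      have h34 : (0 : ℝ) < 3 / 4 := by norm_num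
      rw [← av_mean h34 fun z hz => diffAt_of_ball hg.1 (by linarith)]
      refine norm_av_le_const h34 (cs_of_ball hg.1 (by norm_num)) fun z hz => ?_
      have h2 := mem_sphere_zero_iff_norm.mp hz
      refine (hmaj z (cc_lt34.trans_eq h2.symm) (by linarith)).trans (le_of_eq ?_)
      rw [h z (mem_ball_zero_iff.mpr (by linarith)), h 0 hz0]
      rcases h1 with rfl | rfl <;> simp
    · rw [not_or] at h1
      right
      intro z hz hz1
      rw [h z (mem_ball_zero_iff.mpr (by linarith [cc_lt])), h 0 hz0, zero_pow h1.2, mul_zero,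
        zero_mul]
      exact mul_ne_zero (mul_ne_zero h1.1 (pow_ne_zero _ hz)) h2
  · have hn : n = 0 := by
      by_contra hn
      exact h2 (by rw [h 0 hz0, zero_pow hn, mul_zero])
    simp only [hn, pow_zero, mul_one] at h
    have ha : a ≠ 0 := by rwa [h 0 hz0] at h2
    have key := dom_const (f := fun z => f z / a) (φ := fun z => a * φ z) (hf.1.div_const a)
      (hφ.const_mul a) fun z b1 b2 => by
        rw [norm_div, one_le_div (norm_pos_iff.mpr ha), ← h z (mem_ball_zero_iff.mpr b2)]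
        exact hmaj z (inv_sqrt_lt.trans_le b1) b2
    have e1 : ∀ z, f z / a * (a * φ z) = f z * φ z := fun z => by field_simp
    simp only [e1] at key
    refine le_trans (le_of_eq ?_) key
    exact setLIntegral_congr_fun measurableSet_ball fun z hz => by simp only [h z hz]

end Pool.Agent.Results.MP_5cb574_an.Full
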